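import Pool.Agent.Lib.helper10.NPMat

namespace Pool.Agent.Results.MP_292d26_lc.CoNPHard

open Pool.Agent.Cx

/-- entry `(i, j)` of the 0-1 matrix `M` is one: `i <_M j` -/
def Lt (M : List (List Bool)) (i j : ℕ) : Prop := (M.getD i []).getD j false = true

/-- `M` is the square matrix of a strict partial order on `{0, ..., n-1}` -/
def IsPoset (M : List (List Bool)) : Prop :=
  (∀ r ∈ M, r.length = M.length) ∧ (∀ i, ¬ Lt M i i) ∧ ∀ i j k, Lt M i j → Lt M j k → Lt M i k

/-- `f` maps some chain of `Q` order-isomorphically onto each chain of `P` -/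
def IsWitness (P Q : List (List Bool)) (f : Fin Q.length → Fin P.length) : Prop :=
  ∀ c : List (Fin P.length), c.Pairwise (fun x y : Fin P.length => Lt P x y) →
    ∃ c' : List (Fin Q.length), c'.Pairwise (fun x y : Fin Q.length => Lt Q x y) ∧ c'.map f = c

/-- the yes-instances of CHAIN MINOR -/
def ChainMinor (I : List (List Bool) × List (List Bool)) : Prop :=
  IsPoset I.1 ∧ IsPoset I.2 ∧ ∃ f, IsWitness I.1 I.2 f

/-! ### the reduction -/

lemma isPoset_mat {α : Type} (E : List α) (r : α → α → Bool) (h1 : ∀ x, r x x = false)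
    (h2 : ∀ x y z, r x y = true → r y z = true → r x z = true) : IsPoset (mat E r) := by
  refine ⟨mat_row E r, fun i h => ?_, fun i j k h h' => ?_⟩
  · obtain ⟨_, _, h⟩ := (mat_get E r i i).1 h
    simp [h1] at h
  · obtain ⟨hi, _, h⟩ := (mat_get E r i j).1 h
    obtain ⟨_, hk, h'⟩ := (mat_get E r j k).1 h'
    exact (mat_get E r i k).2 ⟨hi, hk, h2 _ _ _ h h'⟩

lemma chain_iff {α : Type} (E : List α) (r : α → α → Bool) (c : List (Fin (mat E r).length)) :
    c.Pairwise (fun x y : Fin (mat E r).length => Lt (mat E r) x y) ↔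
      (c.map fun x => E[x.1]'(by simpa using x.2)).Pairwise (fun x y => r x y = true) := by
  rw [List.pairwise_map]
  refine List.Pairwise.iff fun x y => ?_
  unfold Lt
  rw [mat_get]
  exact ⟨fun ⟨_, _, h⟩ => h, fun h => ⟨_, _, h⟩⟩

lemma exists_idx {α : Type} (E : List α) (r : α → α → Bool) (c : List α) (h : ∀ x ∈ c, x ∈ E) :
    ∃ c' : List (Fin (mat E r).length), (c'.map fun x => E[x.1]'(by simpa using x.2)) = c := by
  induction c with
  | nil => exact ⟨[], rfl⟩
  | cons a c ih =>
    obtain ⟨c', hc'⟩ := ih (fun x hx => h x (by simp [hx]))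
    obtain ⟨i, hi, e⟩ := List.getElem_of_mem (h a (by simp))
    exact ⟨⟨i, by simpa using hi⟩ :: c', by simp [hc', e]⟩

lemma witness_iff {α β : Type} [Inhabited α] (E : List α) (r : α → α → Bool) (F : List β)
    (s : β → β → Bool) (hE : E.Nodup) (hF : F.Nodup) :
    (∃ f, IsWitness (mat E r) (mat F s) f) ↔ ∃ g : β → α, (∀ y ∈ F, g y ∈ E) ∧
      ∀ c : List α, (∀ x ∈ c, x ∈ E) → c.Pairwise (fun x y => r x y = true) →
        ∃ c' : List β, (∀ y ∈ c', y ∈ F) ∧ c'.Pairwise (fun x y => s x y = true) ∧
          c'.map g = c := by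
  classical
  constructor
  · rintro ⟨f, hf⟩
    let g : β → α := fun y => if h : F.idxOf y < F.length then
      E[(f ⟨F.idxOf y, by simpa using h⟩).1]'(by simpa using (f _).2) else default
    have hg : ∀ i : Fin (mat F s).length, g (F[i.1]'(by simpa using i.2)) =
        E[(f i).1]'(by simpa using (f i).2) := by
      intro i
      have h : F.idxOf (F[i.1]'(by simpa using i.2)) = i.1 := hF.idxOf_getElem _ _
      have hi : i.1 < F.length := by simpa using i.2
      simp only [g, h, dif_pos hi]
    refine ⟨g, fun y hy => ?_, fun c hc hp => ?_⟩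
    · simp only [g, dif_pos (List.idxOf_lt_length_of_mem hy)]
      exact List.getElem_mem _
    · obtain ⟨d, rfl⟩ := exists_idx E r c hc
      obtain ⟨d', h1, rfl⟩ := hf d ((chain_iff E r d).2 hp)
      refine ⟨_, fun y hy => ?_, (chain_iff F s d').1 h1, ?_⟩
      · obtain ⟨x, -, rfl⟩ := List.mem_map.1 hy
        exact List.getElem_mem _
      · simp [List.map_map, Function.comp_def, hg]
  · rintro ⟨g, hg, h⟩
    refine ⟨fun i => ⟨E.idxOf (g (F[i.1]'(by simpa using i.2))), by
      simpa using List.idxOf_lt_length_of_mem (hg _ (List.getElem_mem _))⟩, fun c hc => ?_⟩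
    obtain ⟨c', h1, h2, h3⟩ := h _ (fun x hx => by
      obtain ⟨x, -, rfl⟩ := List.mem_map.1 hx
      exact List.getElem_mem _) ((chain_iff E r c).1 hc)
    obtain ⟨d, rfl⟩ := exists_idx F s c' h1
    refine ⟨d, (chain_iff F s d).2 h2, ?_⟩
    have h4 := congrArg (List.map fun x => E.idxOf x) h3
    simp only [List.map_map, Function.comp_def, hE.idxOf_getElem] at h4
    apply List.map_injective_iff.2 Fin.val_injective
    simpa [List.map_map, Function.comp_def] using h4

abbrev Pt := ℕ × Bool × ℕ

def lev (x : Pt) : ℕ := 2 * x.1 + (bif (x.2.2 == 0) == x.2.1 then 0 else 1)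

def ltP (x y : Pt) : Bool := decide (x.1 < y.1) ||
  (x.1 == y.1 && x.2.1 == y.2.1 && decide (lev x < lev y))

def EP (n N : ℕ) : List Pt := List.range n ×ˢ [false, true] ×ˢ List.range (N + 1)

def EQ (φ : CNF) (n N : ℕ) : List (ℕ × Pt) :=
  (List.range φ.length ×ˢ EP n N).filter fun y => !(φ.getD y.1 []).contains (y.2.1, y.2.2.1)

def ltQ (x y : ℕ × Pt) : Bool := x.1 == y.1 && ltP x.2 y.2

def red (φ : CNF) : List (List Bool) × List (List Bool) :=
  (mat (EP (size φ) (φ.length + 1)) ltP, mat (EQ φ (size φ) (φ.length + 1)) ltQ)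

lemma red_pt : PT red := by
  unfold red EQ EP ltQ ltP lev; fun_prop

lemma mem_EP {n N : ℕ} {x : Pt} : x ∈ EP n N ↔ x.1 < n ∧ x.2.2 ≤ N := by
  obtain ⟨i, b, k⟩ := x
  cases b <;> simp [EP]

lemma mem_EQ {φ : CNF} {n N : ℕ} {y : ℕ × Pt} : y ∈ EQ φ n N ↔
    y.1 < φ.length ∧ y.2 ∈ EP n N ∧ (y.2.1, y.2.2.1) ∉ φ.getD y.1 [] := by
  obtain ⟨c, x⟩ := y
  simp [EQ, and_assoc]

lemma nodup_EP (n N : ℕ) : (EP n N).Nodup :=
  List.nodup_range.product (List.Nodup.product (by simp) List.nodup_range)

lemma lev_bounds (x : Pt) : 2 * x.1 ≤ lev x ∧ lev x ≤ 2 * x.1 + 1 := by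
  unfold lev; cases ((x.2.2 == 0) == x.2.1) <;> simp

lemma ltP_iff {x y : Pt} : ltP x y = true ↔
    x.1 < y.1 ∨ (x.1 = y.1 ∧ x.2.1 = y.2.1 ∧ lev x < lev y) := by
  simp [ltP, and_assoc]

lemma ltP_lev {x y : Pt} (h : ltP x y = true) : lev x < lev y := by
  have := lev_bounds x; have := lev_bounds y
  rcases ltP_iff.1 h with h | h <;> omega

lemma ltP_trans (x y z : Pt) (h : ltP x y = true) (h' : ltP y z = true) : ltP x z = true := by
  rw [ltP_iff] at *
  rcases h with h | ⟨h1, h2, h3⟩ <;> rcases h' with h' | ⟨h4, h5, h6⟩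
  · omega
  · omega
  · omega
  · exact Or.inr ⟨by omega, h2.trans h5, by omega⟩

lemma red_correct (φ : CNF) : Sat φ ↔ ¬ ChainMinor (red φ) := by
  have hP : IsPoset (red φ).1 := isPoset_mat _ _ (fun x => by simp [ltP]) ltP_trans
  have hQ : IsPoset (red φ).2 := isPoset_mat _ _ (fun x => by simp [ltQ, ltP])
    (fun x y z h h' => by
      simp only [ltQ, Bool.and_eq_true, beq_iff_eq] at *
      exact ⟨h.1.trans h'.1, ltP_trans _ _ _ h.2 h'.2⟩)
  have hW := witness_iff (EP (size φ) (φ.length + 1)) ltP (EQ φ (size φ) (φ.length + 1)) ltQ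
    (nodup_EP _ _) ((List.nodup_range.product (nodup_EP _ _)).filter _)
  have hvar := fun c hc l hl => var_lt_size (φ := φ) (c := c) hc (l := l) hl
  simp only [ChainMinor, hP, hQ, true_and]
  simp only [red]
  rw [hW]
  have hn := size_pos φ
  generalize size φ = n at *
  constructor
  · rintro ⟨τ, hτ⟩ ⟨g, -, h⟩
    have hk : ∀ i, ∃ k, 1 ≤ k ∧ k ≤ φ.length + 1 ∧ ∀ c < φ.length,
        g (c, i, !τ i, 0) ≠ (i, τ i, k) := by
      intro i
      by_contra hh
      push Not at hh
      choose! c hc using hh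
      obtain ⟨k, hk, k', hk', hne, e⟩ := Finset.exists_ne_map_eq_of_card_lt_of_maps_to
        (s := Finset.Icc 1 (φ.length + 1)) (t := Finset.range φ.length) (by simp) (f := c)
        (fun k hk => by simp at hk; simpa using (hc k hk.1 hk.2).1)
      simp only [Finset.mem_Icc] at hk hk'
      have h1 := (hc k hk.1 hk.2).2
      have h2 := (hc k' hk'.1 hk'.2).2
      rw [e, h2] at h1
      simp at h1
      exact hne h1.symm
    choose k hk using hk
    let el : ℕ → Pt := fun p => (p / 2, τ (p / 2), if (p % 2 = 0) = (τ (p / 2) = true) then 0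
      else k (p / 2))
    have hel : ∀ p, lev (el p) = p := by
      intro p
      have := (hk (p / 2)).1
      have h0 : (k (p / 2) == 0) = false := by simp; omega
      rcases Nat.mod_two_eq_zero_or_one p with h | h <;> cases h' : τ (p / 2) <;>
        simp [el, lev, h, h', h0] <;> omega
    obtain ⟨c', h1, h2, h3⟩ := h ((List.range (2 * n)).map el) (fun x hx => by
      obtain ⟨p, hp, rfl⟩ := List.mem_map.1 hx
      simp only [List.mem_range] at hp
      refine mem_EP.2 ⟨by simp only [el]; omega, ?_⟩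
      have := (hk (p / 2)).2.1
      simp only [el]; split_ifs <;> omega) (by
      rw [List.pairwise_map]
      refine List.pairwise_lt_range.imp fun {p q} hpq => ltP_iff.2 ?_
      rw [hel, hel]
      by_cases e : p / 2 = q / 2
      · exact Or.inr ⟨e, by simp only [el, e], hpq⟩
      · left; simp only [el]; omega)
    have hlen : c'.length = 2 * n := by simpa using congrArg List.length h3
    have hlev : c'.map (fun y => lev y.2) = List.range (2 * n) := by
      have := eq_range_of_pairwise (l := c'.map (fun y => lev y.2)) (by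
        rw [List.pairwise_map]
        exact h2.imp fun h => ltP_lev (by simp [ltQ] at h; exact h.2)) (fun x hx => by
        obtain ⟨y, hy, rfl⟩ := List.mem_map.1 hx
        have := (mem_EP.1 (mem_EQ.1 (h1 y hy)).2.1).1
        have := lev_bounds y.2
        simp only [List.length_map]; omega)
      simpa [hlen] using this
    have h0 : 0 < c'.length := by omega
    have hc0 := (mem_EQ.1 (h1 _ (List.getElem_mem h0))).1
    have hsame : ∀ p (hp : p < c'.length), c'[p].1 = c'[0].1 := by
      intro p hp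
      rcases Nat.eq_zero_or_pos p with rfl | hp0
      · rfl
      · have := List.pairwise_iff_getElem.1 h2 0 p h0 hp hp0
        simp only [ltQ, Bool.and_eq_true, beq_iff_eq] at this
        exact this.1.symm
    obtain ⟨⟨i, b⟩, hl, hb⟩ := hτ _ (List.getElem_mem hc0)
    have hi := hvar _ (List.getElem_mem hc0) _ hl
    simp only at hb hi
    subst hb
    have hp : 2 * i + (τ i).toNat < c'.length := by cases τ i <;> simp <;> omega
    have e1 : lev c'[2 * i + (τ i).toNat].2 = 2 * i + (τ i).toNat := by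
      have := congrArg (fun L => L[2 * i + (τ i).toNat]?) hlev
      simpa [hp, hlen ▸ hp] using this
    have e2 : g c'[2 * i + (τ i).toNat] = el (2 * i + (τ i).toNat) := by
      have := congrArg (fun L => L[2 * i + (τ i).toNat]?) h3
      simpa [hp, hlen ▸ hp] using this
    have e3 : el (2 * i + (τ i).toNat) = (i, τ i, k i) := by
      have : (2 * i + (τ i).toNat) / 2 = i := by cases τ i <;> simp <;> omega
      simp only [el, this]
      cases τ i <;> simp <;> omega
    have e4 := (mem_EQ.1 (h1 _ (List.getElem_mem hp))).2.2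
    have e5 := hsame _ hp
    generalize c'[2 * i + (τ i).toNat] = y at *
    obtain ⟨c, j, b, m⟩ := y
    simp only at e5 e4 e1
    have := lev_bounds (j, b, m)
    have hj : j = i := by
      have : (τ i).toNat ≤ 1 := Bool.toNat_le _
      simp only at *; omega
    subst hj
    have hb : b = !τ j := by
      rw [e5, List.getD_eq_getElem?_getD, List.getElem?_eq_getElem hc0] at e4
      cases b <;> cases h' : τ j <;> simp_all
    subst hb
    have hm : m = 0 := by
      by_contra hm
      have : (m == 0) = false := by simpa using hm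
      cases h' : τ j <;> simp [lev, h', this] at e1
    subst hm
    exact (hk j).2.2 c (e5 ▸ hc0) (e2.trans e3)
  · intro h
    by_contra hs
    refine h ⟨Prod.snd, fun y hy => (mem_EQ.1 hy).2.1, fun c hc hp => ?_⟩
    classical
    let τ : ℕ → Bool := fun i => decide (∃ x ∈ c, x.1 = i ∧ x.2.1 = true)
    have hτ : ∀ x ∈ c, τ x.1 = x.2.1 := by
      intro x hx
      cases hb : x.2.1
      · simp only [τ, decide_eq_false_iff_not]
        rintro ⟨y, hy, e1, e2⟩
        have hne : x ≠ y := fun e => by rw [e, e2] at hb; simp at hb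
        have hsym : c.Pairwise (fun x y => x.1 = y.1 → x.2.1 = y.2.1) :=
          hp.imp fun {a b} h e => by rcases ltP_iff.1 h with h | h; omega; exact h.2.1
        have : Std.Symm (fun x y : Pt => x.1 = y.1 → x.2.1 = y.2.1) :=
          ⟨fun a b h e => (h e.symm).symm⟩
        have := hsym.forall hx hy hne e1.symm
        rw [hb, e2] at this; simp at this
      · simp only [τ, decide_eq_true_eq]; exact ⟨x, hx, rfl, hb⟩
    simp only [Sat, not_exists, not_forall] at hs
    obtain ⟨cl, hcl, hn⟩ := hs τ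
    obtain ⟨j, hj, rfl⟩ := List.getElem_of_mem hcl
    refine ⟨c.map (Prod.mk j), fun y hy => ?_, ?_, by simp [List.map_map, Function.comp_def]⟩
    · obtain ⟨x, hx, rfl⟩ := List.mem_map.1 hy
      refine mem_EQ.2 ⟨hj, hc x hx, fun hm => hn (x.1, x.2.1) ⟨?_, hτ x hx⟩⟩
      simpa [List.getD_eq_getElem?_getD, hj] using hm
    · rw [List.pairwise_map]
      exact hp.imp fun h => by simpa [ltQ] using h

theorem result : CoNPHard (Lang ChainMinor) ∧
    (InNP (Lang ChainMinor) → ∀ L, InNP L ↔ InCoNP L) :=
  have h : Hard (fun a => ¬ ChainMinor a) := hard_sat.red red_pt red_correct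
  ⟨h.coNPHard, fun h' => np_eq_conp (h.np_sub_conp' h')⟩

end Pool.Agent.Results.MP_292d26_lc.CoNPHard
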